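import Pool.Agent.R140.Shl.Prob

set_option autoImplicit false

/-!
# MP_87030c_co, Q1: almost all pure complexes with facet size `d` are shellable
-/

open Finset Filter Topology

namespace Pool.Agent.Results.MP_87030c_co.AlmostAllShellable

/-- The pure complex with the set of facets `𝓕` (a family of `d`-sets) is shellable: the facets can
be listed as `l` such that for every `j > 0` all maximal members (facets) of the intersection of the
subcomplex generated by `l[j]` with the subcomplex generated by the earlier facets have exactly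
`d - 1` elements. -/
def Shellable (d m : ℕ) (𝓕 : Finset (Finset (Fin m))) : Prop :=
  ∃ l : List (Finset (Fin m)), l.Nodup ∧ l.toFinset = 𝓕 ∧
    ∀ (j : ℕ) (hj : j < l.length), 0 < j →
      ∀ G, Maximal (fun G => G ⊆ l[j] ∧ ∃ (i : ℕ) (hi : i < j), G ⊆ l[i]) G → G.card + 1 = d

theorem shellable_of_shb {d m : ℕ} {𝓕 : Finset (Finset (Fin m))}
    (h : Pool.Agent.R140.Shl.Shb d 𝓕) : Shellable d m 𝓕 := by
  obtain ⟨l, h1, h2, h3⟩ := h
  refine ⟨l, h1, h2, ?_⟩
  intro j hj hj0 G hG
  have h4 : l = l.take j ++ l[j] :: l.drop (j + 1) := by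
    rw [List.getElem_cons_drop, List.take_append_drop]
  have hne : l.take j ≠ [] := by
    intro h5
    have := congrArg List.length h5
    rw [List.length_take, List.length_nil] at this
    omega
  obtain ⟨⟨hG1, i, hi, hG2⟩, hmax⟩ := hG
  obtain ⟨H, hGH, hH1, ⟨F, hF, hHF⟩, hc⟩ := h3 _ _ _ h4 hne G hG1
    ⟨l[i], List.mem_take_iff_getElem.2 ⟨i, by omega, rfl⟩, hG2⟩
  obtain ⟨i', hi', rfl⟩ := List.mem_take_iff_getElem.1 hF
  have h6 : H ≤ G := hmax ⟨hH1, i', by omega, hHF⟩ hGH
  have h7 : G = H := le_antisymm hGH h6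
  rw [h7]
  exact hc

open Classical in
/-- **Q1, affirmative.** For every fixed `d ≥ 1` the proportion of shellable complexes among all
pure complexes with facet size `d` on `m` vertices tends to `1` as `m → ∞` (a complex is given by its
set of facets, an arbitrary set of `d`-subsets of `Fin m`). -/
theorem result (d : ℕ) (hd : 1 ≤ d) :
    Tendsto (fun m : ℕ =>
      ((((powersetCard d (univ : Finset (Fin m))).powerset.filter
        fun 𝓕 => Shellable d m 𝓕).card : ℕ) : ℝ) /
      ((((powersetCard d (univ : Finset (Fin m))).powerset).card : ℕ) : ℝ)) atTop (𝓝 1) := by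
  obtain ⟨e, rfl⟩ := Nat.exists_eq_add_of_le' hd
  have h1 : Tendsto (fun m : ℕ => 1 - Pool.Agent.R140.Shl.bnd e m) atTop (𝓝 1) := by
    have := (Pool.Agent.R140.Shl.tendsto_bnd e).const_sub 1
    rwa [sub_zero] at this
  refine tendsto_of_tendsto_of_tendsto_of_le_of_le h1 tendsto_const_nhds ?_ ?_
  · intro m
    simp only
    rw [card_powerset, card_powersetCard, card_univ, Fintype.card_fin]
    have hpos : (0 : ℝ) < ((2 ^ (m.choose (e + 1)) : ℕ) : ℝ) := by positivity
    rw [le_div_iff₀ hpos]
    have h2 : ((powersetCard (e + 1) (univ : Finset (Fin m))).powerset.filter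
        fun 𝓕 => Shellable (e + 1) m 𝓕).card +
        ((powersetCard (e + 1) (univ : Finset (Fin m))).powerset.filter
        fun 𝓕 => ¬ Shellable (e + 1) m 𝓕).card = 2 ^ (m.choose (e + 1)) := by
      rw [card_filter_add_card_filter_not, card_powerset, card_powersetCard, card_univ,
        Fintype.card_fin]
    have h3 : ((powersetCard (e + 1) (univ : Finset (Fin m))).powerset.filter
        fun 𝓕 => ¬ Shellable (e + 1) m 𝓕).card ≤
        (Pool.Agent.R140.Shl.bad (e + 1) (univ : Finset (Fin m))).card := by
      apply card_le_card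
      intro 𝓕 hF
      rw [mem_filter, mem_powerset] at hF
      exact Pool.Agent.R140.Shl.mem_bad.2 ⟨hF.1, fun h => hF.2 (shellable_of_shb h)⟩
    have h4 := Pool.Agent.R140.Shl.ratio_le e (univ : Finset (Fin m))
    rw [card_univ, Fintype.card_fin] at h4
    have h5 : (((powersetCard (e + 1) (univ : Finset (Fin m))).powerset.filter
        fun 𝓕 => ¬ Shellable (e + 1) m 𝓕).card : ℝ) ≤
        Pool.Agent.R140.Shl.bnd e m * 2 ^ (m.choose (e + 1)) :=
      le_trans (by exact_mod_cast h3) h4
    have h6 : (((powersetCard (e + 1) (univ : Finset (Fin m))).powerset.filter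
        fun 𝓕 => Shellable (e + 1) m 𝓕).card : ℝ) +
        (((powersetCard (e + 1) (univ : Finset (Fin m))).powerset.filter
        fun 𝓕 => ¬ Shellable (e + 1) m 𝓕).card : ℝ) = 2 ^ (m.choose (e + 1)) := by
      exact_mod_cast h2
    push_cast
    linarith
  · intro m
    simp only
    apply div_le_one_of_le₀ _ (Nat.cast_nonneg _)
    exact_mod_cast card_le_card (filter_subset _ _)

end Pool.Agent.Results.MP_87030c_co.AlmostAllShellable
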